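import Pool.Agent.Helper11.PV.St

/-!
# Project PV, module CMP: comparison of `l χ` and `Ph l`
-/

set_option autoImplicit false

namespace Pool.Agent.Helper26.PV

open Finset Pool.Agent.Helper82.CN Pool.Agent.Helper11.PV

/-- the numerical estimate for cliques -/
lemma num_clique (p₁ p x : ℝ) (hp₁ : 0 < p₁) (hp₁' : p₁ < 1) (hp : 0 ≤ p) (hpp : p ≤ p₁)
    (hx : 1 < x) (hx2 : Real.log p₁⁻¹ / 2 ≤ Real.log x) (h : ℕ)
    (hh : 8 / Real.log p₁⁻¹ * Real.log x ≤ h) :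
    x ^ h * p ^ (h.choose 2) ≤ 1 / x ^ 2 := by
  have hL : 0 < Real.log p₁⁻¹ := Real.log_pos (one_lt_inv_iff₀.mpr ⟨hp₁, hp₁'⟩)
  have hx0 : 0 < x := by linarith
  have hlx : 0 < Real.log x := Real.log_pos hx
  have hh0 : (0 : ℝ) < h := lt_of_lt_of_le (by positivity) hh
  have hh1 : (1 : ℝ) ≤ h := by
    have : 0 < h := by exact_mod_cast hh0
    exact_mod_cast this
  have h1 : x ^ h * p ^ (h.choose 2) ≤ x ^ h * p₁ ^ (h.choose 2) := by
    gcongr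
  refine h1.trans ?_
  have e1 : x ^ h = Real.exp ((h : ℝ) * Real.log x) := by
    rw [mul_comm, Real.exp_mul, Real.exp_log hx0, Real.rpow_natCast]
  have e2 : p₁ ^ (h.choose 2) = Real.exp (-((h.choose 2 : ℕ) : ℝ) * Real.log p₁⁻¹) := by
    rw [Real.log_inv, neg_mul_neg, mul_comm, Real.exp_mul, Real.exp_log hp₁, Real.rpow_natCast]
  have e3 : 1 / x ^ 2 = Real.exp (-(2 * Real.log x)) := by
    rw [Real.exp_neg, mul_comm, Real.exp_mul, Real.exp_log hx0, one_div]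
    norm_num
  rw [e1, e2, e3, ← Real.exp_add]
  refine Real.exp_le_exp.mpr ?_
  rw [Nat.cast_choose_two]
  have h2 : 8 * Real.log x ≤ h * Real.log p₁⁻¹ := by
    rw [div_mul_eq_mul_div, div_le_iff₀ hL] at hh
    exact hh
  have h3 : (h : ℝ) * Real.log x + -((h : ℝ) * ((h : ℝ) - 1) / 2) * Real.log p₁⁻¹ =
      h * (Real.log x - ((h : ℝ) * Real.log p₁⁻¹ - Real.log p₁⁻¹) / 2) := by ring
  rw [h3]
  have h4 : Real.log x - ((h : ℝ) * Real.log p₁⁻¹ - Real.log p₁⁻¹) / 2 ≤ -(2 * Real.log x) := by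
    linarith
  calc (h : ℝ) * (Real.log x - ((h : ℝ) * Real.log p₁⁻¹ - Real.log p₁⁻¹) / 2)
      ≤ h * -(2 * Real.log x) := mul_le_mul_of_nonneg_left h4 hh0.le
    _ ≤ 1 * -(2 * Real.log x) := by
        have : 0 ≤ (h - 1 : ℝ) * (2 * Real.log x) := by
          have : (0 : ℝ) ≤ h - 1 := by linarith
          positivity
        linarith
    _ = _ := by ring

theorem tCMP (hPHB : StPHB) (hRAM : StRAM) (hUBD : StUBD) (hNUM : StNUM) :
    Pool.Agent.Helper11.PV.StCMP := by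
  classical
  intro p₁ hp₁ hp₁'
  have hL : 0 < Real.log p₁⁻¹ := Real.log_pos (one_lt_inv_iff₀.mpr ⟨hp₁, hp₁'⟩)
  obtain ⟨c, hc, n₀, hn₀⟩ := hNUM (8 / Real.log p₁⁻¹) (by positivity)
  obtain ⟨n₁, hn₁⟩ : ∃ n₁ : ℕ, ∀ n : ℕ, n₁ ≤ n → Real.log p₁⁻¹ / 2 ≤ Real.log n := by
    have := (Real.tendsto_log_atTop.comp tendsto_natCast_atTop_atTop).eventually_ge_atTop
      (Real.log p₁⁻¹ / 2)
    obtain ⟨n₁, h⟩ := Filter.eventually_atTop.mp this
    exact ⟨n₁, fun n hn => h n hn⟩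
  refine ⟨c, hc, max (max n₀ n₁) 2, ?_⟩
  intro n hn
  have hn0 : n₀ ≤ n := le_trans (le_trans (le_max_left _ _) (le_max_left _ _)) hn
  have hn1 : n₁ ≤ n := le_trans (le_trans (le_max_right _ _) (le_max_left _ _)) hn
  have hn2 : 2 ≤ n := le_trans (le_max_right _ _) hn
  obtain ⟨l, hl1, hl2, hl3⟩ := hn₀ n hn0
  refine ⟨l, hl1, hl2, ?_⟩
  intro p hp0 hpp
  have hp1 : p ≤ 1 := hpp.trans hp₁'.le
  set h : ℕ := ⌈8 / Real.log p₁⁻¹ * Real.log n⌉₊ with hh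
  set m : ℕ := (h + (l + 1)).choose (l + 1) with hm
  have hnR : (1 : ℝ) < n := by exact_mod_cast (by omega : 1 < n)
  have hn0R : (0 : ℝ) < n := by linarith
  obtain ⟨hP1, hP2, hP3, hP4, hP5⟩ := hPHB (Fin n) l
  -- the event
  let A : (Sym2 (Fin n) → Bool) → Prop := fun ω => ∃ S : Finset (Fin n), S.card = h ∧
    ∀ u ∈ S, ∀ v ∈ S, u ≠ v → ω s(u, v) = true
  have hA : PP p A ≤ 1 / (n : ℝ) ^ 2 := by
    refine (hUBD p n h true hp0 hp1).trans ?_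
    have : bw p true = p := by simp [bw]
    rw [this]
    exact num_clique p₁ p n hp₁ hp₁' hp0 hpp hnR (hn₁ n hn1) h (Nat.le_ceil _)
  -- pointwise bounds
  have b0 : ∀ ω : Sym2 (Fin n) → Bool, 0 ≤ (l : ℝ) * ch (gr ω) - PH l ω := by
    intro ω
    have := hP4 (gr ω)
    have h' : ((Ph l (gr ω) : ℕ) : ℝ) ≤ (l : ℝ) * ((gr ω).chromaticNumber.toNat : ℝ) := by
      exact_mod_cast this
    unfold ch PH
    linarith
  have b1 : ∀ ω : Sym2 (Fin n) → Bool, (l : ℝ) * ch (gr ω) - PH l ω ≤ l * n := by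
    intro ω
    have h1 : (gr ω).chromaticNumber ≤ (n : ℕ∞) := by
      have h2 := ((gr ω).colorable_of_fintype).chromaticNumber_le
      simpa using h2
    have h3 : (gr ω).chromaticNumber.toNat ≤ n := ENat.toNat_le_of_le_coe h1
    have h4 : (0 : ℝ) ≤ PH l ω := by unfold PH; positivity
    have h5 : (l : ℝ) * ch (gr ω) ≤ l * n := by
      unfold ch
      have : (((gr ω).chromaticNumber.toNat : ℕ) : ℝ) ≤ n := by exact_mod_cast h3
      gcongr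
    linarith
  have b2 : ∀ ω : Sym2 (Fin n) → Bool, ¬ A ω → (l : ℝ) * ch (gr ω) - PH l ω ≤ l * m := by
    intro ω hω
    have h1 : ∀ S : Finset (Fin n), m ≤ S.card → ∃ T ⊆ S, T.card = l + 1 ∧
        ∀ u ∈ T, ∀ v ∈ T, ¬ (gr ω).Adj u v := by
      intro S hS
      rcases hRAM (Fin n) (gr ω) h (l + 1) S hS with ⟨T, hT, hTc, hTa⟩ | hT
      · exfalso
        exact hω ⟨T, hTc, fun u hu v hv huv => (hTa u hu v hv huv).2⟩
      · exact hT
    have h2 := hP5 (gr ω) m h1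
    have h3 : (l : ℝ) * ((gr ω).chromaticNumber.toNat : ℝ) ≤ (Ph l (gr ω) : ℝ) + l * m := by
      exact_mod_cast h2
    unfold ch PH
    linarith
  have b3 : ∀ ω : Sym2 (Fin n) → Bool, ((l : ℝ) * ch (gr ω) - PH l ω) ^ 2 ≤
      (l : ℝ) ^ 2 * (m : ℝ) ^ 2 + (l : ℝ) ^ 2 * (n : ℝ) ^ 2 * (if A ω then (1 : ℝ) else 0) := by
    intro ω
    by_cases hω : A ω
    · rw [if_pos hω]
      have h1 : ((l : ℝ) * ch (gr ω) - PH l ω) ^ 2 ≤ ((l : ℝ) * n) ^ 2 :=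
        pow_le_pow_left₀ (b0 ω) (b1 ω) 2
      have h2 : (0 : ℝ) ≤ (l : ℝ) ^ 2 * (m : ℝ) ^ 2 := by positivity
      rw [mul_pow] at h1
      linarith
    · rw [if_neg hω]
      have h1 : ((l : ℝ) * ch (gr ω) - PH l ω) ^ 2 ≤ ((l : ℝ) * m) ^ 2 :=
        pow_le_pow_left₀ (b0 ω) (b2 ω hω) 2
      rw [mul_pow] at h1
      linarith
  have h1 := EE_mono hp0 hp1 b3
  rw [EE_add, EE_const, EE_mul_left] at h1
  have h2 : EE p (fun ω => if A ω then (1 : ℝ) else 0) = PP p A := by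
    unfold PP
    refine congrArg (EE p) (funext fun ω => ?_)
    by_cases hω : A ω
    · rw [if_pos hω, if_pos hω]
    · rw [if_neg hω, if_neg hω]
  rw [h2] at h1
  refine h1.trans ?_
  have h3 : (m : ℝ) ^ 2 ≤ √(n : ℝ) := by
    have h4 : (m : ℝ) ≤ (n : ℝ) ^ ((1 : ℝ) / 4) := hl3
    calc (m : ℝ) ^ 2 ≤ ((n : ℝ) ^ ((1 : ℝ) / 4)) ^ 2 := pow_le_pow_left₀ (by positivity) h4 2
      _ = √(n : ℝ) := by
          rw [← Real.rpow_natCast, ← Real.rpow_mul hn0R.le, Real.sqrt_eq_rpow]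
          norm_num
  have h5 : 1 ≤ √(n : ℝ) := by
    rw [Real.one_le_sqrt]
    exact hnR.le
  have h6 : (l : ℝ) ^ 2 * (n : ℝ) ^ 2 * PP p A ≤ (l : ℝ) ^ 2 := by
    calc (l : ℝ) ^ 2 * (n : ℝ) ^ 2 * PP p A ≤ (l : ℝ) ^ 2 * (n : ℝ) ^ 2 * (1 / (n : ℝ) ^ 2) := by
          gcongr
      _ = (l : ℝ) ^ 2 := by field_simp
  have h7 : (l : ℝ) ^ 2 * (m : ℝ) ^ 2 ≤ (l : ℝ) ^ 2 * √(n : ℝ) := by gcongr
  have h8 : (l : ℝ) ^ 2 * 1 ≤ (l : ℝ) ^ 2 * √(n : ℝ) := by gcongr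
  linarith

end Pool.Agent.Helper26.PV
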