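import Pool.Agent.Helper92.PV.St

/-! # PV MODULE CL6 -/

set_option autoImplicit false

open Finset

noncomputable section

namespace Pool.Agent.Helper26.PV

open Pool.Agent.Helper92.PV Pool.Agent.Helper92.PU Pool.Agent.Helper92.PW

/-- the exponents of the quadratic monomials -/
def E6 : Fin 6 → ℕ × ℕ := ![(2, 0), (1, 1), (0, 2), (1, 0), (0, 1), (0, 0)]

theorem mn_E6 (p : Pt) (j : Fin 6) : mn 2 (E6 j) p = ver p j := by
  fin_cases j <;> simp [mn, E6, ver]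

theorem E6_le (j : Fin 6) : (E6 j).1 + (E6 j).2 ≤ 2 := by
  fin_cases j <;> simp [E6]

theorem bd_CL6 {k : ℤ} {B : ℝ} {p : Pt} (h : SP k B p) : Bd B p :=
  ⟨(h.xy.trans h.yz).trans h.z_le, h.yz.trans h.z_le, h.z_le⟩

theorem ver_le_CL6 (B : ℝ) (p : Pt) (h : Bd B p) (hB : 1 ≤ B) (j : Fin 6) :
    |(ver p j : ℝ)| ≤ B ^ 2 := by
  obtain ⟨hx, hy, hz⟩ := h
  have key : ∀ a b : ℝ, |a| ≤ B → |b| ≤ B → |a * b| ≤ B ^ 2 := by
    intro a b ha hb
    rw [abs_mul, pow_two]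
    exact mul_le_mul ha hb (abs_nonneg _) (by linarith)
  have key2 : ∀ a : ℝ, |a| ≤ B → |a ^ 2| ≤ B ^ 2 := by
    intro a ha
    rw [pow_two a]
    exact key a a ha ha
  fin_cases j
  · simpa [ver] using key2 _ hx
  · simpa [ver] using key _ _ hx hy
  · simpa [ver] using key2 _ hy
  · simpa [ver] using key _ _ hx hz
  · simpa [ver] using key _ _ hy hz
  · simpa [ver] using key2 _ hz

theorem prm_CL6 {P : ℕ} (hP : P.Prime) {p : Pt} (h : Prm p) : ∃ m, ¬ (P : ℤ) ∣ vec p m := by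
  by_contra hcon
  push Not at hcon
  have h0 : (P : ℤ) ∣ p.1 := by simpa [vec] using hcon 0
  have h1 : (P : ℤ) ∣ p.2.1 := by simpa [vec] using hcon 1
  have h2 : (P : ℤ) ∣ p.2.2 := by simpa [vec] using hcon 2
  have hu := h _ h0 h1 h2
  have h3 := hP.one_lt
  rcases Int.isUnit_iff.1 hu with h4 | h4 <;> omega

theorem hCL6 (hPCH : StPCH) (hSUM : StSUM) (hPAD : StPAD) (hRNK : StRNK) (hCO2 : StCO2) : StCL6 := by
  intro k ε hk hε
  obtain ⟨C0, M, hC0, hpch⟩ := hPCH k 2 6 (3 / 4) (15 / 4) (by norm_num) (by norm_num) (by norm_num)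
  obtain ⟨C2, hC2, hco⟩ := hCO2 k ε hk hε
  refine ⟨max 1 (C0 + 1), C2, le_max_left _ _, hC2, ?_⟩
  intro B P d G S hB hkB hP hPB hG hS hSS
  have hB0 : (0 : ℝ) < B := by linarith
  have hdet : ∀ p : Fin 6 → Pt, (∀ i, p i ∈ S) →
      Matrix.det (Matrix.of fun i j : Fin 6 => ver (p i) j) = 0 := by
    intro p hp
    by_contra hne
    have hdvd := hPAD P d G p hP hG (fun i => (hS _ (hp i)).2.1) (hS _ (hp 0)).2.2
      (fun i => prm_CL6 hP (hS _ (hp i)).1.prm) (fun i => (hSS _ (hp 0) _ (hp i)).2)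
    have hle := hpch B hB hkB E6 E6_le p (fun i => (hS _ (hp i)).1)
      (fun i i' => (hSS _ (hp i) _ (hp i')).1)
    have heq : (Matrix.of fun i j : Fin 6 => mn 2 (E6 j) (p i)) =
        (Matrix.of fun i j : Fin 6 => ver (p i) j) := by
      ext i j
      exact mn_E6 (p i) j
    rw [heq] at hle
    have hsum := hSUM.2.1 (3 / 4) M le_rfl
    have hexp : ((6 : ℕ) : ℝ) * ((2 : ℕ) : ℝ) - ((6 : ℕ) : ℝ) * (15 / 4) +
        ∑ i ∈ range M, ∑ j ∈ range M, max 0 (15 / 4 - 3 / 4 * (i : ℝ) - 3 * (j : ℝ)) ≤ 3 / 2 := by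
      push_cast
      linarith
    have h1 := hle.trans (mul_le_mul_of_nonneg_left (Real.rpow_le_rpow_of_exponent_le hB hexp) hC0.le)
    -- the lower bound
    have h2 : ((P : ℤ) ^ 15) ≤ |Matrix.det (Matrix.of fun i j : Fin 6 => ver (p i) j)| :=
      Int.le_of_dvd (abs_pos.2 hne) ((dvd_abs _ _).2 hdvd)
    have h3 : (P : ℝ) ^ 15 ≤ |((Matrix.det (Matrix.of fun i j : Fin 6 => ver (p i) j) : ℤ) : ℝ)| := by
      exact_mod_cast h2
    set C1 : ℝ := max 1 (C0 + 1) with hC1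
    have hC11 : 1 ≤ C1 := le_max_left _ _
    have hC12 : C0 + 1 ≤ C1 := le_max_right _ _
    have h4 : (C1 * B ^ (1 / 10 : ℝ)) ^ 15 ≤ (P : ℝ) ^ 15 :=
      pow_le_pow_left₀ (by positivity) hPB 15
    have h5 : (B ^ (1 / 10 : ℝ)) ^ 15 = B ^ (3 / 2 : ℝ) := by
      rw [← Real.rpow_natCast, ← Real.rpow_mul hB0.le]
      congr 1
      norm_num
    rw [mul_pow, h5] at h4
    have h6 : C1 ≤ C1 ^ 15 := le_self_pow₀ hC11 (by norm_num)
    have h7 : 0 < B ^ (3 / 2 : ℝ) := Real.rpow_pos_of_pos hB0 _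
    have h8 : C1 * B ^ (3 / 2 : ℝ) ≤ C0 * B ^ (3 / 2 : ℝ) :=
      (mul_le_mul_of_nonneg_right h6 h7.le).trans (h4.trans (h3.trans h1))
    have h9 := le_of_mul_le_mul_right h8 h7
    linarith
  obtain ⟨Q, hQ0, hQb, hQ⟩ := hRNK B S hB hdet
    (fun p hp j => ver_le_CL6 B p (bd_CL6 (hS p hp).1) hB j)
  exact hco B Q S hB hQ0 hQb
    (fun p hp => ⟨(hS p hp).1.sol, (hS p hp).1.prm, bd_CL6 (hS p hp).1, hQ p hp⟩)

end Pool.Agent.Helper26.PV
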